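import Pool.Agent.X193.COH.Null

namespace Pool.Agent.Results.MP_811a2c_al.NeitherSideExample

open X193.COH

/-- There is a monoid `M` such that `S(M)` is neither left coherent nor right coherent, and a
monoid `T` which is right coherent and contains `S(M)` as a submonoid. Here `M` is the infinite null
semigroup with identity adjoined, and `T = S(E)` where `E` is `M` with one further element. -/
theorem result :
    ∃ (M T : Type) (_ : Monoid M) (_ : Monoid T),
      ¬ LeftCoherent (SP M) ∧ ¬ RightCoherent (SP M) ∧
      (∃ f : SP M →* T, Function.Injective f) ∧ RightCoherent T :=
  ⟨NU, SP NE, inferInstance, inferInstance, not_leftCoherent_NU, not_rightCoherent_NU,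
    ⟨SP.map incl, SP.map_injective incl incl_injective⟩, rightCoherent_NE⟩

end Pool.Agent.Results.MP_811a2c_al.NeitherSideExample
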