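import Pool.Agent.X193.COH.Left
import Pool.Agent.X193.COH.RightMain

namespace Pool.Agent.Results.MP_811a2c_al.RightZeroExample

open X193.COH

/-- The special semidirect product `S(M)` over `M = {one, r 0, r 1, ...}`, the infinite right zero
semigroup with identity adjoined, is right coherent but not left coherent. Consequently there are
monoids `M`, `T` with `S(M)` non-coherent, `S(M)` embedded in `T` as a subsemigroup, and `T` right
coherent. -/
theorem result :
    (¬ LeftCoherent (SP RZ) ∧ RightCoherent (SP RZ)) ∧
    ∃ (M T : Type) (_ : Monoid M) (_ : Monoid T),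
      ¬ (LeftCoherent (SP M) ∧ RightCoherent (SP M)) ∧
      (∃ f : SP M →ₙ* T, Function.Injective f) ∧
      (LeftCoherent T ∨ RightCoherent T) :=
  ⟨⟨not_leftCoherent, rightCoherent⟩, RZ, SP RZ, inferInstance, inferInstance,
    fun h => not_leftCoherent h.1, ⟨MulHom.id _, fun _ _ h => h⟩, Or.inr rightCoherent⟩

end Pool.Agent.Results.MP_811a2c_al.RightZeroExample
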